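import Pool.Agent.Lib_helper58.KT.Sym
import Pool.Agent.Lib_helper62.AP.Orb

/-!
# The generating polynomials as sums over the points of one finite field
-/

set_option autoImplicit false

namespace Pool.Agent.AP

open NumberField Polynomial
open Pool.Agent.TT Pool.Agent.TB Pool.Agent.TF Pool.Agent.RF Pool.Agent.TU Pool.Agent.KT
open Function

/-- The powers of the points of a small field in a large field. -/
theorem l2_pow {Ω : Type} [Field Ω] {q l r P : ℕ} (hq : 1 < q) (hl : 0 < l) (hr : 0 < r)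
    (hlr : l ∣ r) (hP : 0 < P) (hPq : P ∣ q - 1) {Y : Ω} (hY : Y ^ q ^ l = Y) :
    Y ^ ((q ^ r - 1) / P) = (Y ^ ((q ^ l - 1) / P)) ^ (r / l) := by
  obtain ⟨t, rfl⟩ := hlr
  have ht : 0 < t := Nat.pos_of_ne_zero (by rintro rfl; simp at hr)
  rw [Nat.mul_div_cancel_left t hl]
  have hPl : P ∣ q ^ l - 1 := by
    have h1 := Nat.sub_dvd_pow_sub_pow q 1 l
    rw [one_pow] at h1
    exact hPq.trans h1
  obtain ⟨u, hu⟩ := hPl
  have hql : 1 < q ^ l := Nat.one_lt_pow hl.ne' hq
  have hu0 : 0 < u := by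
    rcases Nat.eq_zero_or_pos u with h | h
    · subst h
      omega
    · exact h
  set y : Ω := Y ^ ((q ^ l - 1) / P) with hy
  have hyq : ∀ i, y ^ (q ^ l) ^ i = y := by
    have h1 : y ^ q ^ l = y := by
      rw [hy, ← pow_mul, mul_comm, pow_mul, hY]
    intro i
    induction i with
    | zero => rw [pow_zero, pow_one]
    | succ i ih => rw [pow_succ, pow_mul, ih, h1]
  have hgeom : (q ^ (l * t) - 1) / P = (q ^ l - 1) / P * ∑ i ∈ Finset.range t, (q ^ l) ^ i := by
    have h2 : (q ^ l - 1) * ∑ i ∈ Finset.range t, (q ^ l) ^ i = (q ^ l) ^ t - 1 := by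
      rw [mul_comm]
      exact Nat.geomSum_eq hql t |> fun h => by
        rw [h]
        exact Nat.div_mul_cancel (by
          have h1 := Nat.sub_dvd_pow_sub_pow (q ^ l) 1 t
          rwa [one_pow] at h1)
    rw [pow_mul, ← h2, hu, Nat.mul_div_cancel_left u hP, mul_assoc, Nat.mul_div_cancel_left _ hP]
  rw [hgeom, pow_mul, ← hy, ← Finset.prod_pow_eq_pow_sum, Finset.prod_congr rfl fun i _ => hyq i,
    Finset.prod_const, Finset.card_range]

/-- The residue symbol of a point of a small field in a larger field. -/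
theorem l2_sym {K : Type} [Field K] {Ω Fr Fl : Type} [Field Ω] [Field Fr] [Fintype Fr] [Field Fl]
    [Fintype Fl] {q l r m : ℕ} (hq : 1 < q) (hl : 0 < l) (hr : 0 < r) (hlr : l ∣ r) (hm : 0 < m)
    (hmq : m ∣ q - 1) {ζ : 𝓞 K} (hζ : IsPrimitiveRoot ζ m) {φr : 𝓞 K →+* Fr} {φl : 𝓞 K →+* Fl}
    (hφr : IsPrimitiveRoot (φr ζ) m) (hφl : IsPrimitiveRoot (φl ζ) m)
    (hcr : Fintype.card Fr = q ^ r) (hcl : Fintype.card Fl = q ^ l) (er : Fr →+* Ω) (el : Fl →+* Ω)
    (he : er.comp φr = el.comp φl) {yr : Fr} {yl : Fl} (hy : er yr = el yl) :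
    residueSymbol m ζ φr yr = residueSymbol m ζ φl yl ^ (r / l) := by
  have hlr0 : 0 < r / l := Nat.div_pos (Nat.le_of_dvd hr hlr) hl
  have hdvd : ∀ i, m ∣ q ^ i - 1 := by
    intro i
    have h1 := Nat.sub_dvd_pow_sub_pow q 1 i
    rw [one_pow] at h1
    exact hmq.trans h1
  by_cases h0 : yl = 0
  · have h1 : yr = 0 := by
      apply er.injective
      rw [hy, h0, map_zero, map_zero]
    rw [h0, h1, tw_symbol_zero hm hφl (by rw [hcl]; exact hdvd l),
      tw_symbol_zero hm hφr (by rw [hcr]; exact hdvd r), zero_pow hlr0.ne']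
  · have : NeZero m := ⟨hm.ne'⟩
    obtain ⟨j, -, hj⟩ := hφl.eq_pow_of_pow_eq_one (ξ := yl ^ ((Fintype.card Fl - 1) / m)) (by
      rw [← pow_mul, Nat.div_mul_cancel (by rw [hcl]; exact hdvd l)]
      exact FiniteField.pow_card_sub_one_eq_one yl h0)
    have hzj : (ζ ^ j) ^ m = 1 := by rw [← pow_mul, mul_comm, pow_mul, hζ.pow_eq_one, one_pow]
    have h1 : residueSymbol m ζ φl yl = ζ ^ j := by
      apply sym_eq hm hζ hφl hzj
      rw [map_pow, hj]
    rw [h1]
    apply sym_eq hm hζ hφr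
    · rw [← pow_mul, mul_comm, pow_mul, hzj, one_pow]
    · apply er.injective
      have hYl : (el yl) ^ q ^ l = el yl := by
        rw [← map_pow, ← hcl, FiniteField.pow_card]
      rw [map_pow, hcr, hy, l2_pow hq hl hr hlr hm hmq hYl]
      have h2 : er (φr ((ζ ^ j) ^ (r / l))) = el (φl ((ζ ^ j) ^ (r / l))) := by
        have := congrArg (fun g : 𝓞 K →+* Ω => g ((ζ ^ j) ^ (r / l))) he
        exact this
      rw [h2, map_pow, map_pow, map_pow φl, hj, hcl, map_pow]

/-- The index of a point of a small field in a larger field. -/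
theorem l2_ind {Ω Fr Fl : Type} [Field Ω] [Field Fr] [Fintype Fr] [Field Fl] [Fintype Fl]
    {q l r P : ℕ} (hq : 1 < q) (hl : 0 < l) (hr : 0 < r) (hlr : l ∣ r) (hP : 0 < P)
    (hPq : P ∣ q - 1) (hcr : Fintype.card Fr = q ^ r) (hcl : Fintype.card Fl = q ^ l)
    (er : Fr →+* Ω) (el : Fl →+* Ω) {ηr : Fr} {ηl : Fl} (hη : er ηr = el ηl)
    (hηr : IsPrimitiveRoot ηr P) {yr : Fr} {yl : Fl} (hy : er yr = el yl) {a b : ℕ}
    (ha : yr ^ ((Fintype.card Fr - 1) / P) = ηr ^ a)
    (hb : yl ^ ((Fintype.card Fl - 1) / P) = ηl ^ b) {A : Type} [CommRing A] {w : A}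
    (hw : w ^ P = 1) : w ^ a = (w ^ b) ^ (r / l) := by
  have hYl : (el yl) ^ q ^ l = el yl := by
    rw [← map_pow, ← hcl, FiniteField.pow_card]
  have h1 : ηr ^ a = ηr ^ (b * (r / l)) := by
    apply er.injective
    rw [← ha, map_pow, hcr, hy, l2_pow hq hl hr hlr hP hPq hYl, ← map_pow, ← hcl, hb, ← map_pow,
      ← pow_mul, map_pow, map_pow, hη]
  have h4 : ∀ {B : Type} [CommRing B] {v : B}, v ^ P = 1 → ∀ n, v ^ n = v ^ (n % P) := by
    intro B _ v hv n
    conv_lhs => rw [← Nat.div_add_mod n P]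
    rw [pow_add, pow_mul, hv, one_pow, one_mul]
  rw [h4 hηr.pow_eq_one a, h4 hηr.pow_eq_one (b * (r / l))] at h1
  have h2 := hηr.pow_inj (Nat.mod_lt a hP) (Nat.mod_lt (b * (r / l)) hP) h1
  rw [← pow_mul, h4 hw a, h4 hw (b * (r / l)), h2]


/-- The fixed points of the Frobenius map come from the small field. -/
theorem l2_range {Fr Ω : Type} [Field Fr] [Fintype Fr] [Field Ω] (e : Fr →+* Ω) {y : Ω}
    (hy : y ^ Fintype.card Fr = y) : ∃ z, e z = y := by
  classical
  by_contra hcon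
  push Not at hcon
  set Q := Fintype.card Fr with hQ
  have hQ1 : 1 < Q := Fintype.one_lt_card
  set g : Polynomial Ω := X ^ Q - X with hg
  have hdeg : g.natDegree = Q := FiniteField.X_pow_card_sub_X_natDegree_eq Ω hQ1
  have hg0 : g ≠ 0 := FiniteField.X_pow_card_sub_X_ne_zero Ω hQ1
  have hni : y ∉ Finset.univ.image e := by
    rw [Finset.mem_image]
    rintro ⟨z, -, hz⟩
    exact hcon z hz
  have hsub : (insert y (Finset.univ.image e)).val ⊆ g.roots := by
    intro x hx
    rw [Finset.mem_val, Finset.mem_insert, Finset.mem_image] at hx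
    rw [Polynomial.mem_roots hg0, Polynomial.IsRoot.def, hg, Polynomial.eval_sub,
      Polynomial.eval_pow, Polynomial.eval_X, sub_eq_zero]
    rcases hx with rfl | ⟨z, -, rfl⟩
    · exact hy
    · rw [← map_pow, FiniteField.pow_card]
  have h1 := Polynomial.card_le_degree_of_subset_roots hsub
  rw [hdeg, Finset.card_insert_of_notMem hni, Finset.card_image_of_injective _ e.injective,
    Finset.card_univ] at h1
  omega

/-- The discrete logarithm. -/
noncomputable def dl {Ω : Type} [Field Ω] (g : Ω) (n : ℕ) (y : Ω) : ℕ := by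
  classical
  exact if h : ∃ j, j < n ∧ g ^ j = y then h.choose else 0

theorem dl_spec {Ω : Type} [Field Ω] {g : Ω} {n : ℕ} (hn : 0 < n) (hg : IsPrimitiveRoot g n)
    {y : Ω} (hy : y ^ n = 1) : g ^ dl g n y = y := by
  classical
  have : NeZero n := ⟨hn.ne'⟩
  have h : ∃ j, j < n ∧ g ^ j = y := hg.eq_pow_of_pow_eq_one hy
  unfold dl
  rw [dif_pos h]
  exact h.choose_spec.2

section frob

variable {q : ℕ} [Fact q.Prime]

/-- The Frobenius map. -/
noncomputable def frob (q D M : ℕ) [Fact q.Prime] : Equiv.Perm (Fin M → GaloisField q D) :=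
  Equiv.piCongrRight fun _ => (frobeniusEquiv (GaloisField q D) q).toEquiv

theorem frob_apply {D M : ℕ} (x : Fin M → GaloisField q D) (i : Fin M) :
    frob q D M x i = x i ^ q := rfl

theorem frob_iter {D M : ℕ} (r : ℕ) (x : Fin M → GaloisField q D) (i : Fin M) :
    (frob q D M)^[r] x i = x i ^ q ^ r := by
  induction r with
  | zero => rw [pow_zero, pow_one]; rfl
  | succ r ih => rw [Function.iterate_succ_apply', frob_apply, ih, ← pow_mul, pow_succ]

/-- The map of a polynomial commutes with the Frobenius map. -/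
theorem frob_eval {K : Type} [Field K] {D M : ℕ} (φ₀ : 𝓞 K →+* ZMod q)
    (H : MvPolynomial (Fin M) (𝓞 K)) (x : Fin M → GaloisField q D) (r : ℕ) :
    H.eval₂ ((algebraMap (ZMod q) (GaloisField q D)).comp φ₀) ((frob q D M)^[r] x) =
      H.eval₂ ((algebraMap (ZMod q) (GaloisField q D)).comp φ₀) x ^ q ^ r := by
  have h1 : (frob q D M)^[r] x = fun i => (iterateFrobenius (GaloisField q D) q r) (x i) := by
    funext i
    rw [frob_iter, iterateFrobenius_def]
  rw [h1, ← iterateFrobenius_def, ← MvPolynomial.coe_eval₂Hom, ← MvPolynomial.coe_eval₂Hom]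
  have h2 : (iterateFrobenius (GaloisField q D) q r).comp
      ((algebraMap (ZMod q) (GaloisField q D)).comp φ₀) =
      (algebraMap (ZMod q) (GaloisField q D)).comp φ₀ := by
    rw [← RingHom.comp_assoc]
    congr 1
    exact RingHom.ext_zmod _ _
  have h3 := MvPolynomial.hom_eval₂ H ((algebraMap (ZMod q) (GaloisField q D)).comp φ₀)
    (iterateFrobenius (GaloisField q D) q r) x
  rw [h2] at h3
  exact h3.symm

theorem frob_val {K : Type} [Field K] {D : ℕ} (φ₀ : 𝓞 K →+* ZMod q) (S : TowerStratum K)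
    (x : Fin S.M → GaloisField q D) (r : ℕ) :
    S.val ((algebraMap (ZMod q) (GaloisField q D)).comp φ₀) ((frob q D S.M)^[r] x) =
      S.val ((algebraMap (ZMod q) (GaloisField q D)).comp φ₀) x ^ q ^ r := by
  unfold TowerStratum.val
  rw [frob_eval, frob_eval, div_pow]

open Classical in
/-- The weight of a point: a monomial `y ^ u * w ^ v` or `0`. -/
noncomputable def wt {K : Type} [Field K] (P m D : ℕ) (ζ : 𝓞 K) (φ₀ : 𝓞 K →+* ZMod q)
    (η₀ : ZMod q) (S : TowerStratum K) (x : Fin S.M → GaloisField q D) : (ℤ[X])[X] :=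
  if S.val ((algebraMap (ZMod q) (GaloisField q D)).comp φ₀) x = 0 ∨
      S.H.eval₂ ((algebraMap (ZMod q) (GaloisField q D)).comp φ₀) x = 0 then 0 else
    Polynomial.C (X ^ dl (algebraMap (ZMod q) (GaloisField q D) (φ₀ ζ)) m
      (S.H.eval₂ ((algebraMap (ZMod q) (GaloisField q D)).comp φ₀) x ^
        ((q ^ minimalPeriod (frob q D S.M) x - 1) / m))) *
      X ^ dl (algebraMap (ZMod q) (GaloisField q D) η₀) P
        (S.val ((algebraMap (ZMod q) (GaloisField q D)).comp φ₀) x ^
          ((q ^ minimalPeriod (frob q D S.M) x - 1) / P))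

/-- The powers of the points of the field with `q ^ l` elements are fixed by the Frobenius map. -/
theorem l2_fix {Ω : Type} [Field Ω] {l P : ℕ} (hPq : P ∣ q - 1)
    {Y : Ω} (hY : Y ^ q ^ l = Y) : (Y ^ q) ^ ((q ^ l - 1) / P) = Y ^ ((q ^ l - 1) / P) := by
  have hq : 1 < q := (Fact.out : q.Prime).one_lt
  by_cases hY0 : Y = 0
  · rw [hY0, zero_pow (by omega : q ≠ 0)]
  · have hPl : P ∣ q ^ l - 1 := by
      have h1 := Nat.sub_dvd_pow_sub_pow q 1 l
      rw [one_pow] at h1
      exact hPq.trans h1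
    have h2 : (Y ^ ((q ^ l - 1) / P)) ^ P = 1 := by
      rw [← pow_mul, Nat.div_mul_cancel hPl]
      have h3 : Y ^ (q ^ l - 1) * Y = 1 * Y := by
        rw [← pow_succ, Nat.sub_add_cancel (Nat.one_le_pow _ _ (by omega)), hY, one_mul]
      exact mul_right_cancel₀ hY0 h3
    obtain ⟨t, ht⟩ := hPq
    have h4 : q = P * t + 1 := by omega
    rw [← pow_mul, mul_comm, pow_mul]
    generalize Y ^ ((q ^ l - 1) / P) = y at h2 ⊢
    calc y ^ q = y ^ (P * t + 1) := by rw [← h4]
      _ = y := by rw [pow_succ, pow_mul, h2, one_pow, one_mul]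

theorem wt_const {K : Type} [Field K] {P m D : ℕ} (hPq : P ∣ q - 1) (hmq : m ∣ q - 1) (ζ : 𝓞 K) (φ₀ : 𝓞 K →+* ZMod q)
    (η₀ : ZMod q) (S : TowerStratum K) (x : Fin S.M → GaloisField q D) :
    wt P m D ζ φ₀ η₀ S (frob q D S.M x) = wt P m D ζ φ₀ η₀ S x := by
  classical
  have hfin : x ∈ periodicPts (frob q D S.M) :=
    Function.Injective.mem_periodicPts (frob q D S.M).injective x
  have hper : minimalPeriod (frob q D S.M) (frob q D S.M x) = minimalPeriod (frob q D S.M) x :=
    minimalPeriod_apply hfin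
  have hfix : (frob q D S.M)^[minimalPeriod (frob q D S.M) x] x = x := iterate_minimalPeriod
  have h1 := frob_val φ₀ S x 1
  have h2 := frob_eval φ₀ S.H x 1
  have h3 := frob_val φ₀ S x (minimalPeriod (frob q D S.M) x)
  have h4 := frob_eval φ₀ S.H x (minimalPeriod (frob q D S.M) x)
  rw [pow_one, Function.iterate_one] at h1 h2
  rw [hfix] at h3 h4
  have hq0 : q ≠ 0 := (Fact.out : q.Prime).ne_zero
  unfold wt
  rw [hper, h1, h2, l2_fix hPq h3.symm, l2_fix hmq h4.symm]
  simp only [pow_eq_zero_iff hq0]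

theorem wt_eval {K : Type} [Field K] {P m D : ℕ} (ζ : 𝓞 K) (φ₀ : 𝓞 K →+* ZMod q)
    (η₀ : ZMod q) (S : TowerStratum K) (x : Fin S.M → GaloisField q D) {C : Type} [CommRing C]
    (y w : C) (h : ¬ (S.val ((algebraMap (ZMod q) (GaloisField q D)).comp φ₀) x = 0 ∨
      S.H.eval₂ ((algebraMap (ZMod q) (GaloisField q D)).comp φ₀) x = 0)) :
    ev2 y w (wt P m D ζ φ₀ η₀ S x) =
      y ^ dl (algebraMap (ZMod q) (GaloisField q D) (φ₀ ζ)) m
      (S.H.eval₂ ((algebraMap (ZMod q) (GaloisField q D)).comp φ₀) x ^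
        ((q ^ minimalPeriod (frob q D S.M) x - 1) / m)) *
      w ^ dl (algebraMap (ZMod q) (GaloisField q D) η₀) P
        (S.val ((algebraMap (ZMod q) (GaloisField q D)).comp φ₀) x ^
          ((q ^ minimalPeriod (frob q D S.M) x - 1) / P)) := by
  classical
  unfold wt ev2
  rw [if_neg h]
  simp only [map_mul, map_pow, coe_eval₂RingHom, eval₂_C, eval₂_X]

/-- A root of unity power in the small field. -/
theorem l2_root {Ω : Type} [Field Ω] {l P : ℕ} (hPq : P ∣ q - 1) {Y : Ω}
    (hY0 : Y ≠ 0) (hY : Y ^ q ^ l = Y) : (Y ^ ((q ^ l - 1) / P)) ^ P = 1 := by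
  have hq : 1 < q := (Fact.out : q.Prime).one_lt
  have hPl : P ∣ q ^ l - 1 := by
    have h1 := Nat.sub_dvd_pow_sub_pow q 1 l
    rw [one_pow] at h1
    exact hPq.trans h1
  rw [← pow_mul, Nat.div_mul_cancel hPl]
  have h3 : Y ^ (q ^ l - 1) * Y = 1 * Y := by
    rw [← pow_succ, Nat.sub_add_cancel (Nat.one_le_pow _ _ (by omega)), hY, one_mul]
  exact mul_right_cancel₀ hY0 h3

open Classical in
/-- One summand of the generating polynomial. -/
theorem l2_term {K : Type} [Field K] [∀ l, Fintype (GaloisField q l)]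
    {P m D r : ℕ} (hP : 0 < P) (hm : 0 < m) {ζ : 𝓞 K} (hζ : IsPrimitiveRoot ζ m)
    (φ₀ : 𝓞 K →+* ZMod q) (hφζ : IsPrimitiveRoot (φ₀ ζ) m) {η₀ : ZMod q}
    (hη₀ : IsPrimitiveRoot η₀ P) (hPq : P ∣ q - 1) (hmq : m ∣ q - 1)
    (hr : 0 < r) (e : GaloisField q r →+* GaloisField q D) (a : GaloisField q r → ℕ)
    (ha : ∀ y : GaloisField q r, y ≠ 0 →
      y ^ ((Fintype.card (GaloisField q r) - 1) / P) =
        (algebraMap (ZMod q) (GaloisField q r) η₀) ^ a y)
    (S : TowerStratum K) {C : Type} [CommRing C] (f : 𝓞 K →+* C) {w : C} (hw : w ^ P = 1)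
    (z : Fin S.M → GaloisField q r) {x : Fin S.M → GaloisField q D} (hx : ∀ i, e (z i) = x i) :
    (if S.val ((algebraMap (ZMod q) (GaloisField q r)).comp φ₀) z = 0 then (0 : C) else
      f (residueSymbol m ζ ((algebraMap (ZMod q) (GaloisField q r)).comp φ₀)
        (S.H.eval₂ ((algebraMap (ZMod q) (GaloisField q r)).comp φ₀) z)) *
        w ^ a (S.val ((algebraMap (ZMod q) (GaloisField q r)).comp φ₀) z)) =
      ev2 (f ζ) w (wt P m D ζ φ₀ η₀ S x) ^ (r / minimalPeriod (frob q D S.M) x) := by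
  have hq : 1 < q := (Fact.out : q.Prime).one_lt
  have hx' : x = fun i => e (z i) := funext fun i => (hx i).symm
  have hcr : Fintype.card (GaloisField q r) = q ^ r := by
    rw [← Nat.card_eq_fintype_card]
    exact GaloisField.card q r (by omega)
  have hφ : e.comp ((algebraMap (ZMod q) (GaloisField q r)).comp φ₀) =
      (algebraMap (ZMod q) (GaloisField q D)).comp φ₀ := by
    rw [← RingHom.comp_assoc]
    congr 1
    exact RingHom.ext_zmod _ _
  have heη : ∀ t : ZMod q, e (algebraMap (ZMod q) (GaloisField q r) t) =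
      algebraMap (ZMod q) (GaloisField q D) t := by
    intro t
    have := congrArg (fun g : ZMod q →+* GaloisField q D => g t)
      (RingHom.ext_zmod (e.comp (algebraMap (ZMod q) (GaloisField q r)))
        (algebraMap (ZMod q) (GaloisField q D)))
    exact this
  have hpoly : ∀ H : MvPolynomial (Fin S.M) (𝓞 K),
      e (H.eval₂ ((algebraMap (ZMod q) (GaloisField q r)).comp φ₀) z) =
        H.eval₂ ((algebraMap (ZMod q) (GaloisField q D)).comp φ₀) x := by
    intro H
    rw [MvPolynomial.hom_eval₂, hφ, hx']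
  have hval : e (S.val ((algebraMap (ZMod q) (GaloisField q r)).comp φ₀) z) =
      S.val ((algebraMap (ZMod q) (GaloisField q D)).comp φ₀) x := by
    unfold TowerStratum.val
    rw [map_div₀, hpoly, hpoly]
  have hfin : x ∈ periodicPts (frob q D S.M) :=
    Function.Injective.mem_periodicPts (frob q D S.M).injective x
  set l := minimalPeriod (frob q D S.M) x with hl'
  have hl : 0 < l := minimalPeriod_pos_of_mem_periodicPts hfin
  have hfix : (frob q D S.M)^[l] x = x := iterate_minimalPeriod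
  have hper : IsPeriodicPt (frob q D S.M) r x := by
    funext i
    rw [frob_iter, ← hx i, ← map_pow, ← hcr, FiniteField.pow_card]
  have hlr : l ∣ r := hper.minimalPeriod_dvd
  have hlr0 : 0 < r / l := Nat.div_pos (Nat.le_of_dvd hr hlr) hl
  have hV := frob_val φ₀ S x l
  have hH := frob_eval φ₀ S.H x l
  rw [hfix] at hV hH
  have hinj : ∀ {u : GaloisField q r}, e u = 0 → u = 0 := fun h => by
    apply e.injective
    rw [h, map_zero]
  have hdr : ∀ {P' : ℕ}, P' ∣ q - 1 → P' ∣ Fintype.card (GaloisField q r) - 1 := by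
    intro P' h
    have h1 := Nat.sub_dvd_pow_sub_pow q 1 r
    rw [one_pow] at h1
    rw [hcr]
    exact h.trans h1
  have hφr : IsPrimitiveRoot ((algebraMap (ZMod q) (GaloisField q r)).comp φ₀ ζ) m :=
    hφζ.map_of_injective (algebraMap (ZMod q) (GaloisField q r)).injective
  by_cases h0 : S.val ((algebraMap (ZMod q) (GaloisField q D)).comp φ₀) x = 0
  · have h0' : S.val ((algebraMap (ZMod q) (GaloisField q r)).comp φ₀) z = 0 :=
      hinj (by rw [hval, h0])
    rw [if_pos h0']
    unfold wt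
    rw [if_pos (Or.inl h0), map_zero, zero_pow hlr0.ne']
  have h0' : S.val ((algebraMap (ZMod q) (GaloisField q r)).comp φ₀) z ≠ 0 := by
    intro h
    apply h0
    rw [← hval, h, map_zero]
  rw [if_neg h0']
  by_cases h1 : S.H.eval₂ ((algebraMap (ZMod q) (GaloisField q D)).comp φ₀) x = 0
  · have h1' : S.H.eval₂ ((algebraMap (ZMod q) (GaloisField q r)).comp φ₀) z = 0 :=
      hinj (by rw [hpoly, h1])
    rw [h1', tw_symbol_zero hm hφr (hdr hmq)]
    unfold wt
    rw [if_pos (Or.inr h1), map_zero, map_zero, zero_pow hlr0.ne', zero_mul]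
  rw [wt_eval ζ φ₀ η₀ S x (f ζ) w (fun h => h.elim h0 h1), ← hl', mul_pow]
  congr 1
  · -- the symbol
    set y := S.H.eval₂ ((algebraMap (ZMod q) (GaloisField q D)).comp φ₀) x with hy
    have hg : IsPrimitiveRoot (algebraMap (ZMod q) (GaloisField q D) (φ₀ ζ)) m :=
      hφζ.map_of_injective (algebraMap (ZMod q) (GaloisField q D)).injective
    have h2 := dl_spec hm hg (l2_root hmq h1 hH.symm)
    set j := dl (algebraMap (ZMod q) (GaloisField q D) (φ₀ ζ)) m (y ^ ((q ^ l - 1) / m)) with hj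
    have h3 : residueSymbol m ζ ((algebraMap (ZMod q) (GaloisField q r)).comp φ₀)
        (S.H.eval₂ ((algebraMap (ZMod q) (GaloisField q r)).comp φ₀) z) = (ζ ^ j) ^ (r / l) := by
      apply sym_eq hm hζ hφr
      · have h5 : ((ζ ^ j) ^ (r / l)) ^ m = (ζ ^ m) ^ (j * (r / l)) := by ring
        rw [h5, hζ.pow_eq_one, one_pow]
      · apply e.injective
        rw [map_pow e, hpoly, ← hy, hcr, l2_pow hq hl hr hlr hm hmq hH.symm, ← h2, map_pow, map_pow,
          map_pow, map_pow]
        congr 2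
        exact (heη _).symm
    rw [h3, map_pow, map_pow]
  · -- the index
    set y := S.val ((algebraMap (ZMod q) (GaloisField q D)).comp φ₀) x with hy
    have hg : IsPrimitiveRoot (algebraMap (ZMod q) (GaloisField q D) η₀) P :=
      hη₀.map_of_injective (algebraMap (ZMod q) (GaloisField q D)).injective
    have h2 := dl_spec hP hg (l2_root hPq h0 hV.symm)
    set j := dl (algebraMap (ZMod q) (GaloisField q D) η₀) P (y ^ ((q ^ l - 1) / P)) with hj
    have h3 := ha _ h0'
    set i := a (S.val ((algebraMap (ZMod q) (GaloisField q r)).comp φ₀) z) with hi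
    have h4 : (algebraMap (ZMod q) (GaloisField q D) η₀) ^ i =
        (algebraMap (ZMod q) (GaloisField q D) η₀) ^ (j * (r / l)) := by
      rw [← heη, ← map_pow e, ← h3, map_pow e, hval, hcr, l2_pow hq hl hr hlr hP hPq hV.symm,
        heη, pow_mul, h2]
    have h5 : ∀ {B : Type} [CommRing B] {v : B}, v ^ P = 1 → ∀ n, v ^ n = v ^ (n % P) := by
      intro B _ v hv n
      conv_lhs => rw [← Nat.div_add_mod n P]
      rw [pow_add, pow_mul, hv, one_pow, one_mul]
    rw [h5 hg.pow_eq_one i, h5 hg.pow_eq_one (j * (r / l))] at h4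
    have h6 := hg.pow_inj (Nat.mod_lt i hP) (Nat.mod_lt (j * (r / l)) hP) h4
    rw [← pow_mul, h5 hw i, h5 hw (j * (r / l)), h6]

/-- The generating polynomial as a sum over the points of one finite field. -/
theorem l2_theta {K : Type} [Field K] [∀ l, Fintype (GaloisField q l)]
    {P m D r : ℕ} (hP : 0 < P) (hm : 0 < m) {ζ : 𝓞 K} (hζ : IsPrimitiveRoot ζ m)
    (φ₀ : 𝓞 K →+* ZMod q) (hφζ : IsPrimitiveRoot (φ₀ ζ) m) {η₀ : ZMod q}
    (hη₀ : IsPrimitiveRoot η₀ P) (hPq : P ∣ q - 1) (hmq : m ∣ q - 1)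
    (hr : 0 < r) (hD : 0 < D) (hrD : r ∣ D) (a : GaloisField q r → ℕ)
    (ha : ∀ y : GaloisField q r, y ≠ 0 →
      y ^ ((Fintype.card (GaloisField q r) - 1) / P) =
        (algebraMap (ZMod q) (GaloisField q r) η₀) ^ a y)
    {s : ℕ} (S : Fin s → TowerStratum K) {C : Type} [CommRing C] (f : 𝓞 K →+* C) {w : C}
    (hw : w ^ P = 1) [∀ i, DecidableEq (Fin (S i).M → GaloisField q D)] :
    (theta f m ζ ((algebraMap (ZMod q) (GaloisField q r)).comp φ₀) a S).eval w =
      ev2 (f ζ) w (∑ i, ((S i).c : (ℤ[X])[X]) *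
        ∑ x : Fin (S i).M → GaloisField q D, if (frob q D (S i).M)^[r] x = x then
          wt P m D ζ φ₀ η₀ (S i) x ^ (r / minimalPeriod (frob q D (S i).M) x) else 0) := by
  classical
  have hq : 1 < q := (Fact.out : q.Prime).one_lt
  have hcr : Fintype.card (GaloisField q r) = q ^ r := by
    rw [← Nat.card_eq_fintype_card]
    exact GaloisField.card q r (by omega)
  obtain ⟨e'⟩ : Nonempty (GaloisField q r →ₐ[ZMod q] GaloisField q D) := by
    apply FiniteField.nonempty_algHom_of_finrank_dvd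
    rw [GaloisField.finrank q hr.ne', GaloisField.finrank q hD.ne']
    exact hrD
  let e : GaloisField q r →+* GaloisField q D := e'.toRingHom
  unfold theta
  rw [Polynomial.eval_finsetSum, map_sum]
  apply Finset.sum_congr rfl
  intro i _
  rw [Polynomial.eval_mul, Polynomial.eval_C, Polynomial.eval_finsetSum, map_mul, map_intCast]
  congr 1
  rw [← Finset.sum_filter, map_sum]
  apply Finset.sum_bij (fun z _ => fun i => e (z i))
  · intro z _
    rw [Finset.mem_filter]
    refine ⟨Finset.mem_univ _, ?_⟩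
    funext i
    rw [frob_iter, ← map_pow, ← hcr, FiniteField.pow_card]
  · intro z _ z' _ h
    funext i
    exact e.injective (congrFun h i)
  · intro x hx
    rw [Finset.mem_filter] at hx
    have h1 : ∀ i, ∃ z, e z = x i := by
      intro i
      apply l2_range
      rw [hcr, ← frob_iter, hx.2]
    choose z hz using h1
    exact ⟨z, Finset.mem_univ _, funext hz⟩
  · intro z _
    rw [map_pow, ← l2_term hP hm hζ φ₀ hφζ hη₀ hPq hmq hr e a ha (S i) f hw z fun i => rfl]
    split_ifs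
    · rw [Polynomial.eval_zero]
    · rw [Polynomial.eval_mul, Polynomial.eval_C, Polynomial.eval_pow, Polynomial.eval_X]

end frob

/-- BLOCK LF. The Euler product: the sums `Θ_r(w)` of all extensions of `𝔽_q`, `w ^ P = 1`, are the
power sums of ONE sequence of polynomials with coefficients in `ℤ[ζ]`. -/
theorem block_LF {K : Type} [Field K] {q : ℕ} [Fact q.Prime] [∀ l, Fintype (GaloisField q l)]
    {P m : ℕ} (hP : 0 < P) (hm : 0 < m) {ζ : 𝓞 K} (hζ : IsPrimitiveRoot ζ m) (φ₀ : 𝓞 K →+* ZMod q)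
    (hφζ : IsPrimitiveRoot (φ₀ ζ) m) {η₀ : ZMod q} (hη₀ : IsPrimitiveRoot η₀ P)
    (a : ∀ l, GaloisField q l → ℕ)
    (ha : ∀ l, 1 ≤ l → ∀ y : GaloisField q l, y ≠ 0 →
      y ^ ((Fintype.card (GaloisField q l) - 1) / P) =
        (algebraMap (ZMod q) (GaloisField q l) η₀) ^ a l y)
    {s : ℕ} (S : Fin s → TowerStratum K) (d : ℕ) :
    ∃ E : ℕ → (ℤ[X])[X], ∀ {C : Type} [CommRing C] (f : 𝓞 K →+* C) (w : C), w ^ P = 1 →
      NRec (fun r => (theta f m ζ ((algebraMap (ZMod q) (GaloisField q r)).comp φ₀) (a r) S).eval w)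
        (fun j => ev2 (f ζ) w (E j)) d := by
  classical
  have hPq : P ∣ q - 1 := hη₀.dvd_of_pow_eq_one _ (ZMod.pow_card_sub_one_eq_one (by
    rintro rfl
    have h1 := hη₀.pow_eq_one
    rw [zero_pow hP.ne'] at h1
    exact zero_ne_one h1))
  have hmq : m ∣ q - 1 := hφζ.dvd_of_pow_eq_one _ (ZMod.pow_card_sub_one_eq_one (by
    intro h0
    have h1 := hφζ.pow_eq_one
    rw [h0, zero_pow hm.ne'] at h1
    exact zero_ne_one h1))
  have hE := hasE_nrec (hasE_sum Finset.univ (s := fun (i : Fin s) (r : ℕ) =>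
    ((S i).c : (ℤ[X])[X]) * ∑ x : Fin (S i).M → GaloisField q d.factorial,
      if (frob q d.factorial (S i).M)^[r] x = x then
        wt P m d.factorial ζ φ₀ η₀ (S i) x ^ (r / minimalPeriod (frob q d.factorial (S i).M) x)
      else 0) fun i _ => hasE_zsmul (block_ORB (frob q d.factorial (S i).M)
        (frob q d.factorial (S i).M).injective (wt P m d.factorial ζ φ₀ η₀ (S i))
        (wt_const hPq hmq ζ φ₀ η₀ (S i))) (S i).c)
  obtain ⟨E, hE⟩ := hE
  refine ⟨E, ?_⟩
  intro C _ f w hw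
  refine ⟨?_, ?_⟩
  · beta_reduce
    rw [(hE d).1, map_one]
  · intro j hj hjd
    have h1 := congrArg (ev2 (f ζ) w) ((hE d).2 j hj hjd)
    rw [map_mul, map_natCast, map_neg, map_sum] at h1
    beta_reduce
    rw [h1]
    congr 1
    apply Finset.sum_congr rfl
    intro i hi
    rw [Finset.mem_range] at hi
    rw [map_mul, l2_theta hP hm hζ φ₀ hφζ hη₀ hPq hmq (Nat.succ_pos i) d.factorial_pos
      (Nat.dvd_factorial (Nat.succ_pos i) (by omega)) (a (i + 1)) (ha (i + 1) (by omega)) S f hw]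

end Pool.Agent.AP
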